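import Pool.Agent.Helper73.PW.E1
import Pool.Agent.Helper95.PW.Centre

/-!
Module E4 for MP_124889_co: the central edge.
-/

open MvPolynomial

namespace PoolPW

section e4gen

variable {V : Type*}

theorem e4_delVV_adj (M : SimpleGraph V) (b r u v : V) :
    (delVV M b r).Adj u v ↔ M.Adj u v ∧ u ≠ b ∧ v ≠ b ∧ u ≠ r ∧ v ≠ r := by
  unfold delVV delV
  constructor
  · rintro ⟨⟨h1, h2, h3⟩, h4, h5⟩
    exact ⟨h1, h2, h3, h4, h5⟩
  · rintro ⟨h1, h2, h3, h4, h5⟩
    exact ⟨⟨h1, h2, h3⟩, h4, h5⟩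

open Classical in
theorem e4_sum_closed [Fintype V] (K : SimpleGraph V) (g : V → ZMod 2) (S : Finset V)
    (hS : ∀ u ∈ S, ∀ v, K.Reachable u v → v ∈ S)
    (h : ∀ u ∈ S, ∑ v ∈ Finset.univ.filter (fun v => K.Reachable u v), g v = 0) :
    ∑ v ∈ S, g v = 0 := by
  rw [← Finset.sum_fiberwise_of_maps_to (s := S) (t := (Finset.univ : Finset K.ConnectedComponent))
    (g := fun v => K.connectedComponentMk v) (fun _ _ => Finset.mem_univ _)]
  refine Finset.sum_eq_zero fun C _ => ?_
  by_cases hC : ∃ u ∈ S, K.connectedComponentMk u = C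
  · obtain ⟨u, hu, rfl⟩ := hC
    rw [← h u hu]
    refine Finset.sum_congr ?_ fun _ _ => rfl
    ext v
    simp only [Finset.mem_filter, Finset.mem_univ, true_and]
    constructor
    · rintro ⟨_, h2⟩
      exact (SimpleGraph.ConnectedComponent.exact h2).symm
    · intro h2
      exact ⟨hS u hu v h2, SimpleGraph.ConnectedComponent.sound h2.symm⟩
  · rw [Finset.filter_eq_empty_iff.2, Finset.sum_empty]
    intro v hv hv'
    exact hC ⟨v, hv, hv'⟩

open Classical in
theorem e4_sum [Fintype V] (E : Finset (V × V)) (y : V × V → ℝ) (hy : ∀ e ∉ E, y e = 0)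
    (P : V → V → Prop) (hP : ∀ e ∈ E, e.1 ≠ e.2 → P e.1 e.2 ∧ P e.2 e.1) (hP' : ∀ v, ¬ P v v)
    (v : V) :
    ∑ u ∈ Finset.univ.filter (fun u => P v u), (y (v, u) + y (u, v)) + y (v, v) =
      ∑ e ∈ E, inc e v * y e := by
  have h1 : ∑ e ∈ E, inc e v * y e = ∑ e : V × V, inc e v * y e := by
    refine Finset.sum_subset (Finset.subset_univ _) fun e _ he => ?_
    rw [hy e he, mul_zero]
  have h2 : ∀ x u : V, inc (x, u) v * y (x, u) = (if v = x then y (x, u) else 0) +
      (if v = u then y (x, u) else 0) - (if v = x then (if v = u then y (x, u) else 0) else 0) := by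
    intro x u
    unfold inc
    by_cases hx : v = x <;> by_cases hu : v = u <;> simp [hx, hu]
  have h3 : ∑ e : V × V, inc e v * y e = ∑ u, (y (v, u) + y (u, v)) - y (v, v) := by
    rw [Fintype.sum_prod_type]
    simp_rw [h2, Finset.sum_sub_distrib, Finset.sum_add_distrib]
    have hA : ∑ x, ∑ u, (if v = x then y (x, u) else 0) = ∑ u, y (v, u) := by
      rw [Finset.sum_comm]
      exact Finset.sum_congr rfl fun u _ => by simp
    have hB : ∑ x, ∑ u, (if v = u then y (x, u) else 0) = ∑ x, y (x, v) :=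
      Finset.sum_congr rfl fun x _ => by simp
    have hC : ∑ x, ∑ u, (if v = x then (if v = u then y (x, u) else 0) else 0) = y (v, v) := by
      rw [Finset.sum_eq_single v]
      · simp
      · intro x _ hx
        simp [Ne.symm hx]
      · simp
    rw [hA, hB, hC]
  have h4 : ∑ u ∈ Finset.univ.filter (fun u => P v u), (y (v, u) + y (u, v)) =
      ∑ u ∈ Finset.univ.erase v, (y (v, u) + y (u, v)) := by
    refine Finset.sum_subset ?_ ?_
    · intro u hu
      rw [Finset.mem_filter] at hu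
      refine Finset.mem_erase.2 ⟨?_, Finset.mem_univ _⟩
      rintro rfl
      exact hP' u hu.2
    · intro u hu hu'
      have hne : u ≠ v := (Finset.mem_erase.1 hu).1
      have hnP : ¬ P v u := fun h => hu' (Finset.mem_filter.2 ⟨Finset.mem_univ _, h⟩)
      have e1 : y (v, u) = 0 := by
        apply hy
        intro h
        exact hnP (hP _ h hne.symm).1
      have e2 : y (u, v) = 0 := by
        apply hy
        intro h
        exact hnP (hP _ h hne).2
      rw [e1, e2, add_zero]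
  rw [h1, h3, h4, ← Finset.add_sum_erase Finset.univ _ (Finset.mem_univ v)]
  ring

theorem e4_sg_eq (T : V → ZMod 2) {x s : V} (h : T x = T s) : sg T x = sg T s := by
  unfold sg
  rw [h]

theorem e4_sg_ne (T : V → ZMod 2) {x s : V} (h : T x ≠ T s) : sg T s = - sg T x := by
  unfold sg
  have h01 : ∀ t : ZMod 2, t = 0 ∨ t = 1 := by decide
  have hne : (1 : ZMod 2) ≠ 0 := by decide
  rcases h01 (T x) with h1 | h1 <;> rcases h01 (T s) with h2 | h2
  · exact absurd (h1.trans h2.symm) h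
  · rw [if_pos h1, if_neg (by rw [h2]; exact hne)]
  · rw [if_pos h2, if_neg (by rw [h1]; exact hne)]; norm_num
  · exact absurd (h1.trans h2.symm) h

theorem e4_sg_ne_zero (T : V → ZMod 2) (x : V) : sg T x ≠ 0 := by
  unfold sg
  split_ifs <;> norm_num

theorem e4_lin_pair [Fintype V] (T : V → ZMod 2) {x s : V} (h : x ≠ s) :
    ModB.lin (exB T) (x, s) = C (sg T x) * X x + C (sg T s) * X s := by
  classical
  unfold ModB.lin
  have h1 : ∀ v, (C (exB T (x, s) v) * X v : MvPolynomial V ℝ) =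
      if v = x ∨ v = s then C (sg T v) * X v else 0 := by
    intro v
    unfold exB inc
    by_cases hv : v = x ∨ v = s
    · simp [hv]
    · simp [hv]
  simp_rw [h1]
  rw [← Finset.sum_filter]
  have h2 : Finset.univ.filter (fun v => v = x ∨ v = s) = {x, s} := by
    ext v; simp
  rw [h2, Finset.sum_pair h]

theorem e4_lin_self [Fintype V] (T : V → ZMod 2) (x : V) :
    ModB.lin (exB T) (x, x) = C (sg T x) * X x := by
  classical
  unfold ModB.lin
  have h1 : ∀ v, (C (exB T (x, x) v) * X v : MvPolynomial V ℝ) =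
      if v = x then C (sg T v) * X v else 0 := by
    intro v
    unfold exB inc
    by_cases hv : v = x
    · simp [hv]
    · simp [hv]
  simp_rw [h1]
  simp

theorem e4_lin_opp [Fintype V] (T : V → ZMod 2) {x s : V} (h : T x ≠ T s) :
    ModB.lin (exB T) (x, s) = C (sg T x) * (X x - X s) := by
  have hne : x ≠ s := by rintro rfl; exact h rfl
  rw [e4_lin_pair T hne, e4_sg_ne T h, C_neg]
  ring

theorem e4_lin_same [Fintype V] (T : V → ZMod 2) {x s : V} (hne : x ≠ s) (h : T x = T s) :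
    ModB.lin (exB T) (x, s) = C (sg T x) * (X x + X s) := by
  rw [e4_lin_pair T hne, e4_sg_eq T h]
  ring

open Classical in
/-- the product over the pairs starting at `x` -/
theorem e4_prod_opp [Fintype V] (T : V → ZMod 2) (x : V) (B : Finset V)
    (hB : ∀ s ∈ B, T x ≠ T s) :
    ∏ e ∈ B.image (fun s => (x, s)), ModB.lin (exB T) e =
      C (sg T x ^ B.card) * ∏ s ∈ B, (X x - X s) := by
  rw [Finset.prod_image (by intro s _ s' _ h; exact (Prod.mk.inj h).2)]
  rw [Finset.prod_congr rfl (fun s hs => e4_lin_opp T (hB s hs)), Finset.prod_mul_distrib,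
    Finset.prod_const, C_pow]

open Classical in
theorem e4_cut_compl [Fintype V] (M : SimpleGraph V) (T : V → ZMod 2) :
    cutCount M (fun v => T v + 1) = cutCount M T := by
  unfold cutCount
  congr 1
  ext e
  simp only [Finset.mem_filter, Finset.mem_univ, true_and, ne_eq, add_left_inj]

theorem e4_max_compl [Fintype V] {M : SimpleGraph V} {T : V → ZMod 2} (h : IsMaxCut M T) :
    IsMaxCut M (fun v => T v + 1) := by
  intro T'
  rw [e4_cut_compl]
  exact h T'

open Classical in
/-- the extra toggles -/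
noncomputable def e4E (b r : V) (Bb Br : Finset V) (pb pr η : ℕ) : Finset (V × V) :=
  Bb.image (fun s => (b, s)) ∪ (Br.image (fun s => (r, s)) ∪
    ((if pb = 1 then {(b, b)} else ∅) ∪ ((if pr = 1 then {(r, r)} else ∅) ∪
      (if η = 1 then {(b, r)} else ∅))))

open Classical in
/-- the extra pairs -/
noncomputable def e4N (b r : V) (Nb Nr : Finset V) (ε : ℕ) : Finset (V × V) :=
  Nb.image (fun s => (b, s)) ∪ (Nr.image (fun s => (r, s)) ∪ (if ε = 1 then {(b, r)} else ∅))

theorem mem_e4E (b r : V) (Bb Br : Finset V) (pb pr η : ℕ) (e : V × V) :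
    e ∈ e4E b r Bb Br pb pr η ↔ (e.1 = b ∧ e.2 ∈ Bb) ∨ (e.1 = r ∧ e.2 ∈ Br) ∨
      (pb = 1 ∧ e = (b, b)) ∨ (pr = 1 ∧ e = (r, r)) ∨ (η = 1 ∧ e = (b, r)) := by
  classical
  unfold e4E
  have h1 : ∀ (x : V) (B : Finset V), e ∈ B.image (fun s => (x, s)) ↔ e.1 = x ∧ e.2 ∈ B := by
    intro x B
    rw [Finset.mem_image]
    constructor
    · rintro ⟨s, hs, rfl⟩; exact ⟨rfl, hs⟩
    · rintro ⟨rfl, h⟩; exact ⟨e.2, h, rfl⟩
  have h2 : ∀ (p : Prop) [Decidable p] (f : V × V), e ∈ (if p then {f} else ∅ : Finset (V × V)) ↔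
      p ∧ e = f := by
    intro p _ f
    by_cases hp : p <;> simp [hp]
  rw [Finset.mem_union, Finset.mem_union, Finset.mem_union, Finset.mem_union, h1, h1, h2, h2, h2]

theorem mem_e4N (b r : V) (Nb Nr : Finset V) (ε : ℕ) (e : V × V) :
    e ∈ e4N b r Nb Nr ε ↔ (e.1 = b ∧ e.2 ∈ Nb) ∨ (e.1 = r ∧ e.2 ∈ Nr) ∨ (ε = 1 ∧ e = (b, r)) := by
  classical
  unfold e4N
  have h1 : ∀ (x : V) (B : Finset V), e ∈ B.image (fun s => (x, s)) ↔ e.1 = x ∧ e.2 ∈ B := by
    intro x B
    rw [Finset.mem_image]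
    constructor
    · rintro ⟨s, hs, rfl⟩; exact ⟨rfl, hs⟩
    · rintro ⟨rfl, h⟩; exact ⟨e.2, h, rfl⟩
  have h2 : ∀ (p : Prop) [Decidable p] (f : V × V), e ∈ (if p then {f} else ∅ : Finset (V × V)) ↔
      p ∧ e = f := by
    intro p _ f
    by_cases hp : p <;> simp [hp]
  rw [Finset.mem_union, Finset.mem_union, h1, h1, h2]

theorem e4_prod_ite {R : Type*} [CommMonoid R] (n : ℕ) (hn : n ≤ 1) (f : V × V → R) (e : V × V) :
    ∏ x ∈ (if n = 1 then {e} else ∅ : Finset (V × V)), f x = f e ^ n := by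
  rcases Nat.le_one_iff_eq_zero_or_eq_one.1 hn with rfl | rfl <;> simp

open Classical in
theorem e4_prodE [Fintype V] (T : V → ZMod 2) (b r : V) (hbr : b ≠ r) (Bb Br : Finset V)
    (hBb : ∀ v ∈ Bb, v ≠ b ∧ v ≠ r ∧ T v ≠ T b) (hBr : ∀ v ∈ Br, v ≠ b ∧ v ≠ r ∧ T v ≠ T r)
    (pb pr η : ℕ) (hpb : pb ≤ 1) (hpr : pr ≤ 1) (hη : η ≤ 1) (hηT : η = 1 → T b = T r) :
    ∃ k : ℝ, k ≠ 0 ∧ ∏ e ∈ e4E b r Bb Br pb pr η, ModB.lin (exB T) e =
      C k * ((X b + X r) ^ η * (∏ v ∈ Bb, (X b - X v)) * (∏ v ∈ Br, (X r - X v)) *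
        X b ^ pb * X r ^ pr) := by
  have hm1 : ∀ (x : V) (B : Finset V) (e : V × V), e ∈ B.image (fun s => (x, s)) ↔
      e.1 = x ∧ e.2 ∈ B := by
    intro x B e
    rw [Finset.mem_image]
    constructor
    · rintro ⟨s, hs, rfl⟩; exact ⟨rfl, hs⟩
    · rintro ⟨rfl, h⟩; exact ⟨e.2, h, rfl⟩
  have hm2 : ∀ (n : ℕ) (f e : V × V), e ∈ (if n = 1 then {f} else ∅ : Finset (V × V)) →
      e = f := by
    intro n f e h
    by_cases hp : n = 1
    · rw [if_pos hp] at h; exact Finset.mem_singleton.1 h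
    · rw [if_neg hp] at h; simp at h
  have hlast : ∃ k : ℝ, k ≠ 0 ∧ ModB.lin (exB T) (b, r) ^ η = C k * (X b + X r) ^ η := by
    rcases Nat.le_one_iff_eq_zero_or_eq_one.1 hη with h | h
    · exact ⟨1, one_ne_zero, by rw [h]; simp⟩
    · refine ⟨sg T b, e4_sg_ne_zero T b, ?_⟩
      rw [h, pow_one, pow_one, e4_lin_same T hbr (hηT h)]
  obtain ⟨k, hk, hk'⟩ := hlast
  refine ⟨sg T b ^ Bb.card * sg T r ^ Br.card * sg T b ^ pb * sg T r ^ pr * k, ?_, ?_⟩
  · have hb := e4_sg_ne_zero T b
    have hr := e4_sg_ne_zero T r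
    positivity
  · unfold e4E
    rw [Finset.prod_union, Finset.prod_union, Finset.prod_union, Finset.prod_union,
      e4_prod_opp T b Bb (fun s hs => (hBb s hs).2.2.symm),
      e4_prod_opp T r Br (fun s hs => (hBr s hs).2.2.symm), e4_prod_ite pb hpb,
      e4_prod_ite pr hpr, e4_prod_ite η hη, hk', e4_lin_self, e4_lin_self]
    · simp only [C_mul, C_pow, mul_pow]
      ring
    · rw [Finset.disjoint_left]
      intro e h1 h2
      have e1 := hm2 _ _ _ h1
      have e2 := hm2 _ _ _ h2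
      rw [e1] at e2
      exact hbr (Prod.mk.inj e2).1.symm
    · rw [Finset.disjoint_left]
      intro e h1 h2
      have e1 := hm2 _ _ _ h1
      rcases Finset.mem_union.1 h2 with h2 | h2
      · have e2 := hm2 _ _ _ h2
        rw [e1] at e2
        exact hbr (Prod.mk.inj e2).1
      · have e2 := hm2 _ _ _ h2
        rw [e1] at e2
        exact hbr (Prod.mk.inj e2).2
    · rw [Finset.disjoint_left]
      intro e h1 h2
      rw [hm1] at h1
      rcases Finset.mem_union.1 h2 with h2 | h2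
      · have e2 := hm2 _ _ _ h2
        rw [e2] at h1
        exact hbr h1.1
      rcases Finset.mem_union.1 h2 with h2 | h2
      · have e2 := hm2 _ _ _ h2
        rw [e2] at h1
        exact (hBr _ h1.2).2.1 rfl
      · have e2 := hm2 _ _ _ h2
        rw [e2] at h1
        exact hbr h1.1
    · rw [Finset.disjoint_left]
      intro e h1 h2
      rw [hm1] at h1
      rcases Finset.mem_union.1 h2 with h2 | h2
      · rw [hm1] at h2
        exact hbr (h1.1.symm.trans h2.1)
      rcases Finset.mem_union.1 h2 with h2 | h2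
      · have e2 := hm2 _ _ _ h2
        rw [e2] at h1
        exact (hBb _ h1.2).1 rfl
      rcases Finset.mem_union.1 h2 with h2 | h2
      · have e2 := hm2 _ _ _ h2
        rw [e2] at h1
        exact hbr h1.1.symm
      · have e2 := hm2 _ _ _ h2
        rw [e2] at h1
        exact (hBb _ h1.2).2.1 rfl

open Classical in
theorem e4_prodN [Fintype V] (b r : V) (hbr : b ≠ r) (Nb Nr : Finset V)
    (hNb : ∀ v ∈ Nb, v ≠ b ∧ v ≠ r) (ε : ℕ) (hε : ε ≤ 1) :
    ∏ n ∈ e4N b r Nb Nr ε, (X n.1 - X n.2 : MvPolynomial V ℝ) =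
      (X b - X r) ^ ε * (∏ v ∈ Nb, (X b - X v)) * (∏ v ∈ Nr, (X r - X v)) := by
  have hm1 : ∀ (x : V) (B : Finset V) (e : V × V), e ∈ B.image (fun s => (x, s)) ↔
      e.1 = x ∧ e.2 ∈ B := by
    intro x B e
    rw [Finset.mem_image]
    constructor
    · rintro ⟨s, hs, rfl⟩; exact ⟨rfl, hs⟩
    · rintro ⟨rfl, h⟩; exact ⟨e.2, h, rfl⟩
  have hm2 : ∀ (n : ℕ) (f e : V × V), e ∈ (if n = 1 then {f} else ∅ : Finset (V × V)) →
      e = f := by
    intro n f e h
    by_cases hp : n = 1
    · rw [if_pos hp] at h; exact Finset.mem_singleton.1 h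
    · rw [if_neg hp] at h; simp at h
  unfold e4N
  rw [Finset.prod_union, Finset.prod_union, e4_prod_ite ε hε,
    Finset.prod_image (by intro s _ s' _ h; exact (Prod.mk.inj h).2),
    Finset.prod_image (by intro s _ s' _ h; exact (Prod.mk.inj h).2)]
  · ring
  · rw [Finset.disjoint_left]
    intro e h1 h2
    rw [hm1] at h1
    have e2 := hm2 _ _ _ h2
    rw [e2] at h1
    exact hbr h1.1
  · rw [Finset.disjoint_left]
    intro e h1 h2
    rw [hm1] at h1
    rcases Finset.mem_union.1 h2 with h2 | h2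
    · rw [hm1] at h2
      exact hbr (h1.1.symm.trans h2.1)
    · have e2 := hm2 _ _ _ h2
      rw [e2] at h1
      exact (hNb _ h1.2).2 rfl

theorem e4_pderiv_dPoly [Fintype V] (M' : SimpleGraph V) (T : V → ZMod 2) (b : V)
    (hb : ∀ v, ¬ M'.Adj b v) : pderiv b (dPoly M' T) = 0 := by
  unfold dPoly
  refine Finset.prod_induction _ (fun p => pderiv b p = 0) ?_ ?_ ?_
  · intro p q hp hq
    rw [Derivation.leibniz, hp, hq]
    simp
  · simp
  · intro h hh
    rw [mem_dIn] at hh
    have h1 : h.1 ≠ b := by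
      intro he
      exact hb h.2 (he ▸ hh.1.1)
    have h2 : h.2 ≠ b := by
      intro he
      exact hb h.1 (he ▸ hh.1.1.symm)
    rw [map_sub, pderiv_X_of_ne h1, pderiv_X_of_ne h2, sub_zero]

theorem e4_homog_dPoly [Fintype V] (M' : SimpleGraph V) (T : V → ZMod 2) (wt : V → ℕ)
    (hw : ∀ u v, M'.Adj u v → T u = T v → wt u = wt v) :
    ∃ n, (dPoly M' T).IsWeightedHomogeneous wt n := by
  refine ⟨∑ h ∈ dIn M' T, wt h.1, ?_⟩
  unfold dPoly
  apply MvPolynomial.IsWeightedHomogeneous.prod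
  intro h hh
  rw [mem_dIn] at hh
  have h1 : wt h.1 = wt h.2 := hw _ _ hh.1.1 hh.1.2
  have e1 : IsWeightedHomogeneous wt (X h.1 : MvPolynomial V ℝ) (wt h.1) :=
    isWeightedHomogeneous_X ℝ wt h.1
  have e2 : IsWeightedHomogeneous wt (X h.2 : MvPolynomial V ℝ) (wt h.1) := by
    rw [h1]; exact isWeightedHomogeneous_X ℝ wt h.2
  exact (weightedHomogeneousSubmodule ℝ wt (wt h.1)).sub_mem e1 e2

open Classical in
theorem e4_poly [Fintype V] (M' : SimpleGraph V) (T : V → ZMod 2) (b r : V) (hbr : b ≠ r)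
    (hMb : ∀ v, ¬ M'.Adj b v) (hMr : ∀ v, ¬ M'.Adj r v) (Nb Nr Bb Br : Finset V)
    (hNb : ∀ v ∈ Nb, v ≠ b ∧ v ≠ r ∧ T v = T b) (hNr : ∀ v ∈ Nr, v ≠ b ∧ v ≠ r ∧ T v = T b)
    (hBb : ∀ v ∈ Bb, v ≠ b ∧ v ≠ r ∧ T v ≠ T b) (hBr : ∀ v ∈ Br, v ≠ b ∧ v ≠ r ∧ T v ≠ T b)
    (hBr' : ∀ v ∈ Br, T v ≠ T r) (ε η pb pr : ℕ) (hε : ε ≤ 1) (hη : η ≤ 1) (hpb : pb ≤ 1)
    (hpr : pr ≤ 1) (hηT : η = 1 → T b = T r)
    (hnum : (ε = 0 ∧ η = 0 ∧ Bb.card + pb = Nb.card ∧ Br.card + pr = Nr.card) ∨
      (ε = 1 ∧ η = 0 ∧ Bb.card + pb = Nb.card + 1 ∧ Br.card + pr = Nr.card) ∨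
      (ε = 1 ∧ η = 0 ∧ Bb.card + pb = Nb.card ∧ Br.card + pr = Nr.card + 1) ∨
      (ε = 1 ∧ η = 1 ∧ Bb.card + pb = Nb.card ∧ Br.card + pr = Nr.card ∧ Nb.card ≠ Nr.card) ∨
      (ε = 1 ∧ η = 1 ∧ Bb.card + pb + 1 = Nb.card ∧ Br.card + pr = Nr.card + 1)) :
    ModB.prL ((∏ e ∈ e4E b r Bb Br pb pr η, ModB.lin (exB T) e) * dPoly M' T)
      ((∏ n ∈ e4N b r Nb Nr ε, (X n.1 - X n.2)) * dPoly M' T) ≠ 0 := by
  obtain ⟨k, hk, hE⟩ := e4_prodE T b r hbr Bb Br hBb
    (fun v hv => ⟨(hBr v hv).1, (hBr v hv).2.1, hBr' v hv⟩) pb pr η hpb hpr hη hηT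
  rw [hE, e4_prodN b r hbr Nb Nr (fun v hv => ⟨(hNb v hv).1, (hNb v hv).2.1⟩) ε hε]
  have hadj : ∀ u v, M'.Adj u v → (u ≠ b ∧ u ≠ r) ∧ (v ≠ b ∧ v ≠ r) := by
    intro u v h
    refine ⟨⟨?_, ?_⟩, ⟨?_, ?_⟩⟩
    · rintro rfl; exact hMb v h
    · rintro rfl; exact hMr v h
    · rintro rfl; exact hMb u h.symm
    · rintro rfl; exact hMr u h.symm
  obtain ⟨uG, hG⟩ := e4_homog_dPoly M' T
    (fun v => if v ≠ b ∧ v ≠ r ∧ T v = T b then 1 else 0) (by
      intro u v h ht
      obtain ⟨h1, h2⟩ := hadj u v h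
      simp [h1, h2, ht])
  obtain ⟨uS, hS⟩ := e4_homog_dPoly M' T
    (fun v => if v ≠ b ∧ v ≠ r ∧ T v ≠ T b then 1 else 0) (by
      intro u v h ht
      obtain ⟨h1, h2⟩ := hadj u v h
      simp [h1, h2, ht])
  have key := pairing_core b r hbr (fun v => v ≠ b ∧ v ≠ r ∧ T v = T b)
    (fun v => v ≠ b ∧ v ≠ r ∧ T v ≠ T b) (dPoly M' T) (dPoly_ne M' T)
    (e4_pderiv_dPoly M' T b hMb) (e4_pderiv_dPoly M' T r hMr) _ _
    (fun v => ⟨fun h => if_pos h, fun h => if_neg h⟩)
    (fun v => ⟨fun h => if_pos h, fun h => if_neg h⟩) uG uS hG hS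
    (fun v h => h.2.2.2 h.1.2.2) (fun h => h.1 rfl) (fun h => h.2.1 rfl) (fun h => h.1 rfl)
    (fun h => h.2.1 rfl) Nb Nr Bb Br hNb hNr hBb hBr ε η pb pr hnum
  intro h0
  apply key
  have h1 : (C k * ((X b + X r) ^ η * (∏ v ∈ Bb, (X b - X v)) * (∏ v ∈ Br, (X r - X v)) *
        X b ^ pb * X r ^ pr) * dPoly M' T : MvPolynomial V ℝ) =
      k • ((X b + X r) ^ η * (∏ v ∈ Bb, (X b - X v)) * (∏ v ∈ Br, (X r - X v)) *
        X b ^ pb * X r ^ pr * dPoly M' T) := by
    rw [smul_eq_C_mul]; ring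
  rw [h1, map_smul, LinearMap.smul_apply, smul_eq_mul] at h0
  exact (mul_eq_zero.1 h0).resolve_left hk

/-- the edges at `b` and `r` which are not toggles -/
def e4L (M : SimpleGraph V) (b r : V) (Bb Br : Finset V) : SimpleGraph V where
  Adj u v := M.Adj u v ∧ ((u = b ∧ v ≠ r ∧ v ∉ Bb) ∨ (v = b ∧ u ≠ r ∧ u ∉ Bb) ∨
    (u = r ∧ v ≠ b ∧ v ∉ Br) ∨ (v = r ∧ u ≠ b ∧ u ∉ Br))
  symm := ⟨fun u v h => ⟨h.1.symm, by
    rcases h.2 with h | h | h | h
    · exact Or.inr (Or.inl h)
    · exact Or.inl h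
    · exact Or.inr (Or.inr (Or.inr h))
    · exact Or.inr (Or.inr (Or.inl h))⟩⟩
  loopless := ⟨fun _ h => M.loopless.irrefl _ h.1⟩

/-- the labels of the edges: from `w` on the graph `K`, toggles elsewhere -/
theorem e4_glue [Fintype V] (M K : SimpleGraph V) (hKM : K ≤ M) (β : V → ℕ) (a z c : ℝ)
    (hac : a ≠ c) (E : Finset (V × V))
    (hE : ∀ e ∈ E, e.1 ≠ e.2 → M.Adj e.1 e.2 ∧ ¬ K.Adj e.1 e.2)
    (hE2 : ∀ v, (v, v) ∈ E → 1 ≤ β v)
    (hE3 : ∀ u v, u ≠ v → (u, v) ∈ E → (v, u) ∉ E)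
    (w : V → V → ℝ) (y : V × V → ℝ) (hws : ∀ u v, w u v = w v u)
    (hwv : ∀ u v, w u v = a ∨ w u v = z ∨ w u v = c)
    (hy : ∀ e, y e = 0 ∨ y e = c - a) (hy0 : ∀ e ∉ E, y e = 0) :
    ∃ (w' : V → V → ℝ) (i : V → ℕ), (∀ u v, w' u v = w' v u) ∧
      (∀ u v, w' u v = a ∨ w' u v = z ∨ w' u v = c) ∧ (∀ v, i v ≤ β v) ∧
      ∀ v, val M (fun v => a * β v + (c - a) * i v) w' v =
        val K (fun v => (a * β v + a * dg M v - a * dg K v) + ∑ e ∈ E, inc e v * y e) w v := by
  classical
  have hca : c - a ≠ 0 := sub_ne_zero.2 (Ne.symm hac)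
  refine ⟨fun u v => if K.Adj u v then w u v else a + (y (u, v) + y (v, u)) *
    (if u = v then 0 else 1), fun v => if y (v, v) = 0 then 0 else 1, ?_, ?_, ?_, ?_⟩
  · intro u v
    have h1 : K.Adj u v ↔ K.Adj v u := ⟨fun h => h.symm, fun h => h.symm⟩
    beta_reduce
    by_cases h : K.Adj u v
    · rw [if_pos h, if_pos h.symm, hws]
    · rw [if_neg h, if_neg (fun h' => h (h1.2 h')), add_comm (y (u, v))]
      by_cases huv : u = v
      · subst huv; rfl
      · rw [if_neg huv, if_neg (Ne.symm huv)]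
  · intro u v
    beta_reduce
    by_cases h : K.Adj u v
    · rw [if_pos h]; exact hwv u v
    · rw [if_neg h]
      by_cases huv : u = v
      · left; rw [if_pos huv]; ring
      · rw [if_neg huv, mul_one]
        by_cases h1 : (u, v) ∈ E
        · rw [hy0 _ (hE3 u v huv h1)]
          rcases hy (u, v) with h2 | h2
          · left; rw [h2]; ring
          · right; right; rw [h2]; ring
        · rw [hy0 _ h1]
          rcases hy (v, u) with h2 | h2
          · left; rw [h2]; ring
          · right; right; rw [h2]; ring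
  · intro v
    by_cases h : y (v, v) = 0
    · simp only [h, if_true]; exact Nat.zero_le _
    · simp only [h, if_false]
      exact hE2 v (by by_contra h'; exact h (hy0 _ h'))
  · intro v
    have hsum := e4_sum E y hy0 (fun u v => M.Adj u v ∧ ¬ K.Adj u v) (by
      intro e he hne
      obtain ⟨h1, h2⟩ := hE e he hne
      exact ⟨⟨h1, h2⟩, h1.symm, fun h => h2 h.symm⟩) (fun v h => M.loopless.irrefl _ h.1) v
    have hsum2 : ∑ u ∈ Finset.univ.filter (fun u => M.Adj v u ∧ ¬ K.Adj v u),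
        (y (v, u) + y (u, v)) + y (v, v) = ∑ e ∈ E, inc e v * y e := by
      convert hsum
    unfold val
    beta_reduce
    rw [← hsum2]
    have hi : (c - a) * ((if y (v, v) = 0 then 0 else 1 : ℕ) : ℝ) = y (v, v) := by
      rcases hy (v, v) with h | h
      · simp [h]
      · rw [h, if_neg hca]; simp
    rw [hi]
    have hsplit : Finset.univ.filter (fun u => M.Adj v u) =
        Finset.univ.filter (fun u => K.Adj v u) ∪
          Finset.univ.filter (fun u => M.Adj v u ∧ ¬ K.Adj v u) := by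
      ext u
      simp only [Finset.mem_filter, Finset.mem_univ, true_and, Finset.mem_union]
      constructor
      · intro h
        by_cases h' : K.Adj v u
        · exact Or.inl h'
        · exact Or.inr ⟨h, h'⟩
      · rintro (h | h)
        · exact hKM h
        · exact h.1
    have hdisj : Disjoint (Finset.univ.filter (fun u => K.Adj v u))
        (Finset.univ.filter (fun u => M.Adj v u ∧ ¬ K.Adj v u)) := by
      rw [Finset.disjoint_left]
      intro u h1 h2
      exact (Finset.mem_filter.1 h2).2.2 (Finset.mem_filter.1 h1).2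
    have hcard : (dg M v : ℝ) = dg K v +
        (Finset.univ.filter (fun u => M.Adj v u ∧ ¬ K.Adj v u)).card := by
      have h := Finset.card_union_of_disjoint hdisj
      rw [← hsplit] at h
      unfold dg
      exact_mod_cast h
    rw [hsplit, Finset.sum_union hdisj, hcard]
    have h1 : ∑ u ∈ Finset.univ.filter (fun u => K.Adj v u),
        (if K.Adj v u then w v u else a + (y (v, u) + y (u, v)) * (if v = u then 0 else 1)) =
        ∑ u ∈ Finset.univ.filter (fun u => K.Adj v u), w v u := by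
      refine Finset.sum_congr rfl fun u hu => ?_
      rw [if_pos (Finset.mem_filter.1 hu).2]
    have h2 : ∑ u ∈ Finset.univ.filter (fun u => M.Adj v u ∧ ¬ K.Adj v u),
        (if K.Adj v u then w v u else a + (y (v, u) + y (u, v)) * (if v = u then 0 else 1)) =
        a * (Finset.univ.filter (fun u => M.Adj v u ∧ ¬ K.Adj v u)).card +
        ∑ u ∈ Finset.univ.filter (fun u => M.Adj v u ∧ ¬ K.Adj v u), (y (v, u) + y (u, v)) := by
      rw [mul_comm a, ← nsmul_eq_mul, ← Finset.sum_const, ← Finset.sum_add_distrib]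
      refine Finset.sum_congr rfl fun u hu => ?_
      have h3 := (Finset.mem_filter.1 hu).2
      rw [if_neg h3.2, if_neg h3.1.ne, mul_one]
    rw [h1, h2]
    ring

/-- the components of the graph `K` obtained by linking components of `M'` to `b` and `r` -/
theorem e4_comp [Fintype V] (M' L : SimpleGraph V) (u : V)
    (hL : ∀ x y, (M' ⊔ L).Reachable u x → ¬ L.Adj x y) (v : V) :
    (M' ⊔ L).Reachable u v ↔ M'.Reachable u v := by
  constructor
  · rintro ⟨p⟩
    have key : ∀ (x y : V) (p : (M' ⊔ L).Walk x y), (M' ⊔ L).Reachable u x →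
        M'.Reachable x y := by
      intro x y p
      induction p with
      | nil => intro _; exact SimpleGraph.Reachable.refl _
      | @cons x x' y h p ih =>
        intro hx
        have hM : M'.Adj x x' := by
          rcases (SimpleGraph.sup_adj _ _ _ _).1 h with h' | h'
          · exact h'
          · exact absurd h' (hL x x' hx)
        exact hM.reachable.trans (ih (hx.trans h.reachable))
    exact key u v p (SimpleGraph.Reachable.refl _)
  · intro h
    exact h.mono le_sup_left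

theorem e4_isol (G : SimpleGraph V) {b u : V} (hb : ∀ v, ¬ G.Adj b v) (h : G.Reachable u b) :
    u = b := by
  obtain ⟨p⟩ := h.symm
  cases p with
  | nil => rfl
  | cons h' _ => exact absurd h' (hb _)

theorem e4_delb (M : SimpleGraph V) (b r v : V) : ¬ (delVV M b r).Adj b v := by
  rw [e4_delVV_adj]
  rintro ⟨_, h, _⟩
  exact h rfl

theorem e4_delr (M : SimpleGraph V) (b r v : V) : ¬ (delVV M b r).Adj r v := by
  rw [e4_delVV_adj]
  rintro ⟨_, _, _, h, _⟩
  exact h rfl

open Classical in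
theorem e4_hpar [Fintype V] (M : SimpleGraph V) (b r : V) (T f : V → ZMod 2)
    (hcard : Even (Fintype.card V))
    (hev : ∀ u, u ≠ b → u ≠ r →
      Even (Finset.univ.filter (fun v => (delVV M b r).Reachable u v)).card)
    (htot : ∑ v, (f v + T v) = 0) (Bb Br : Finset V)
    (hlink : ∀ u, u ≠ b → u ≠ r → (∀ v, (delVV M b r).Reachable u v → M.Adj b v → v ∈ Bb) →
      (∀ v, (delVV M b r).Reachable u v → M.Adj r v → v ∈ Br) →
      ∑ v ∈ Finset.univ.filter (fun v => (delVV M b r).Reachable u v), (f v + T v) = 0) :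
    (∀ u, ∑ v ∈ Finset.univ.filter (fun v => (delVV M b r ⊔ e4L M b r Bb Br).Reachable u v),
        (f v + T v) = 0) ∨
      (∀ u, ∑ v ∈ Finset.univ.filter (fun v => (delVV M b r ⊔ e4L M b r Bb Br).Reachable u v),
        (f v + (T v + 1)) = 0) := by
  set M' := delVV M b r with hM'
  set K := M' ⊔ e4L M b r Bb Br with hK
  have hcomp : ∀ u, ¬ K.Reachable u b → ¬ K.Reachable u r → ∀ v,
      K.Reachable u v ↔ M'.Reachable u v := by
    intro u hub hur
    refine e4_comp M' (e4L M b r Bb Br) u ?_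
    intro x y hx hxy
    have hy : K.Reachable u y := hx.trans
      (SimpleGraph.Adj.reachable ((SimpleGraph.sup_adj _ _ _ _).2 (Or.inr hxy)))
    rcases hxy.2 with h | h | h | h
    · exact hub (h.1 ▸ hx)
    · exact hub (h.1 ▸ hy)
    · exact hur (h.1 ▸ hx)
    · exact hur (h.1 ▸ hy)
  have hfil : ∀ u, ¬ K.Reachable u b → ¬ K.Reachable u r →
      Finset.univ.filter (fun v => K.Reachable u v) =
        Finset.univ.filter (fun v => M'.Reachable u v) := by
    intro u hub hur
    ext v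
    simp only [Finset.mem_filter, Finset.mem_univ, true_and]
    exact hcomp u hub hur v
  have hub' : ∀ u, ¬ K.Reachable u b → u ≠ b := by
    rintro u h rfl
    exact h (SimpleGraph.Reachable.refl _)
  have hur' : ∀ u, ¬ K.Reachable u r → u ≠ r := by
    rintro u h rfl
    exact h (SimpleGraph.Reachable.refl _)
  have hout : ∀ u, ¬ K.Reachable u b → ¬ K.Reachable u r →
      ∑ v ∈ Finset.univ.filter (fun v => K.Reachable u v), (f v + T v) = 0 := by
    intro u hub hur
    rw [hfil u hub hur]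
    refine hlink u (hub' u hub) (hur' u hur) ?_ ?_
    · intro v hv hbv
      by_contra hvB
      apply hub
      have h1 : K.Reachable u v := (hcomp u hub hur v).2 hv
      refine h1.trans (SimpleGraph.Reachable.symm (SimpleGraph.Adj.reachable
        ((SimpleGraph.sup_adj _ _ _ _).2 (Or.inr ⟨hbv, Or.inl ⟨rfl, ?_, hvB⟩⟩))))
      rintro rfl
      exact hur h1
    · intro v hv hrv
      by_contra hvB
      apply hur
      have h1 : K.Reachable u v := (hcomp u hub hur v).2 hv
      refine h1.trans (SimpleGraph.Reachable.symm (SimpleGraph.Adj.reachable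
        ((SimpleGraph.sup_adj _ _ _ _).2 (Or.inr ⟨hrv, Or.inr (Or.inr (Or.inl ⟨rfl, ?_, hvB⟩))⟩))))
      rintro rfl
      exact hub h1
  have hfilC : ∀ u x, K.Reachable u x → Finset.univ.filter (fun v => K.Reachable u v) =
      Finset.univ.filter (fun v => K.Reachable x v) := by
    intro u x h
    ext v
    simp only [Finset.mem_filter, Finset.mem_univ, true_and]
    exact ⟨fun h' => h.symm.trans h', fun h' => h.trans h'⟩
  by_cases hbr : K.Reachable b r
  · left
    have h1 : ∑ v ∈ Finset.univ \ Finset.univ.filter (fun v => K.Reachable b v),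
        (f v + T v) = 0 := by
      apply e4_sum_closed K
      · intro u hu v huv
        simp only [Finset.mem_sdiff, Finset.mem_univ, true_and, Finset.mem_filter] at hu ⊢
        exact fun h => hu (h.trans huv.symm)
      · intro u hu
        simp only [Finset.mem_sdiff, Finset.mem_univ, true_and, Finset.mem_filter] at hu
        convert hout u (fun h => hu h.symm) (fun h => hu (hbr.trans h.symm))
    have h2 : ∑ v ∈ Finset.univ.filter (fun v => K.Reachable b v), (f v + T v) = 0 := by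
      have := Finset.sum_sdiff (f := fun v => f v + T v)
        (Finset.subset_univ (Finset.univ.filter (fun v => K.Reachable b v)))
      rw [h1, zero_add, htot] at this
      exact this
    intro u
    by_cases hu : K.Reachable u b
    · rw [hfilC u b hu]; exact h2
    · exact hout u hu (fun h => hu (h.trans hbr.symm))
  · -- two components
    have hdisj : Disjoint (Finset.univ.filter (fun v => K.Reachable b v))
        (Finset.univ.filter (fun v => K.Reachable r v)) := by
      rw [Finset.disjoint_left]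
      intro v h1 h2
      simp only [Finset.mem_filter, Finset.mem_univ, true_and] at h1 h2
      exact hbr (h1.trans h2.symm)
    have h1 : ∑ v ∈ Finset.univ \ (Finset.univ.filter (fun v => K.Reachable b v) ∪
        Finset.univ.filter (fun v => K.Reachable r v)), (f v + T v) = 0 := by
      apply e4_sum_closed K
      · intro u hu v huv
        simp only [Finset.mem_sdiff, Finset.mem_univ, true_and, Finset.mem_filter,
          Finset.mem_union, not_or] at hu ⊢
        exact ⟨fun h => hu.1 (h.trans huv.symm), fun h => hu.2 (h.trans huv.symm)⟩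
      · intro u hu
        simp only [Finset.mem_sdiff, Finset.mem_univ, true_and, Finset.mem_filter,
          Finset.mem_union, not_or] at hu
        convert hout u (fun h => hu.1 h.symm) (fun h => hu.2 h.symm)
    have h2 : ∑ v ∈ Finset.univ.filter (fun v => K.Reachable b v), (f v + T v) +
        ∑ v ∈ Finset.univ.filter (fun v => K.Reachable r v), (f v + T v) = 0 := by
      rw [← Finset.sum_union hdisj]
      have := Finset.sum_sdiff (f := fun v => f v + T v)
        (Finset.subset_univ (Finset.univ.filter (fun v => K.Reachable b v) ∪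
          Finset.univ.filter (fun v => K.Reachable r v)))
      rw [h1, zero_add, htot] at this
      exact this
    have hodd : ∀ x x', (x = b ∧ x' = r) ∨ (x = r ∧ x' = b) →
        ((Finset.univ.filter (fun v => K.Reachable x v)).card : ZMod 2) = 1 := by
      intro x x' hx
      have hxx' : ¬ K.Reachable x x' := by
        rcases hx with ⟨rfl, rfl⟩ | ⟨rfl, rfl⟩
        · exact hbr
        · exact fun h => hbr h.symm
      have hiso : ∀ v, ¬ M'.Adj x v := by
        rcases hx with ⟨rfl, rfl⟩ | ⟨rfl, rfl⟩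
        · exact e4_delb M _ _
        · exact e4_delr M _ _
      have h3 : ∑ v ∈ (Finset.univ.filter (fun v => K.Reachable x v)).erase x,
          (1 : ZMod 2) = 0 := by
        apply e4_sum_closed M'
        · intro u hu v huv
          simp only [Finset.mem_erase, Finset.mem_filter, Finset.mem_univ, true_and] at hu ⊢
          refine ⟨?_, hu.2.trans (huv.mono le_sup_left)⟩
          rintro rfl
          exact hu.1 (e4_isol M' hiso huv)
        · intro u hu
          simp only [Finset.mem_erase, Finset.mem_filter, Finset.mem_univ, true_and] at hu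
          have hux' : u ≠ x' := by
            rintro rfl
            exact hxx' hu.2
          have hubr : u ≠ b ∧ u ≠ r := by
            rcases hx with ⟨rfl, rfl⟩ | ⟨rfl, rfl⟩
            · exact ⟨hu.1, hux'⟩
            · exact ⟨hux', hu.1⟩
          have h4 := hev u hubr.1 hubr.2
          rw [Finset.sum_const, nsmul_eq_mul, mul_one]
          exact (ZMod.natCast_eq_zero_iff_even).2 h4
      have h5 : x ∈ Finset.univ.filter (fun v => K.Reachable x v) := by
        simp only [Finset.mem_filter, Finset.mem_univ, true_and]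
        exact SimpleGraph.Reachable.refl _
      rw [Finset.sum_const, nsmul_eq_mul, mul_one] at h3
      rw [← Finset.card_erase_add_one h5]
      push_cast
      rw [h3, zero_add]
    have h01 : ∀ t : ZMod 2, t = 0 ∨ t = 1 := by decide
    rcases h01 (∑ v ∈ Finset.univ.filter (fun v => K.Reachable b v), (f v + T v)) with h3 | h3
    · left
      rw [h3, zero_add] at h2
      intro u
      by_cases hu : K.Reachable u b
      · rw [hfilC u b hu]; exact h3
      · by_cases hu' : K.Reachable u r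
        · rw [hfilC u r hu']; exact h2
        · exact hout u hu hu'
    · right
      have h4 : ∑ v ∈ Finset.univ.filter (fun v => K.Reachable r v), (f v + T v) = 1 := by
        rw [h3] at h2
        have : ∀ t : ZMod 2, 1 + t = 0 → t = 1 := by decide
        exact this _ h2
      have hsum : ∀ S : Finset V, ∑ v ∈ S, (f v + (T v + 1)) =
          ∑ v ∈ S, (f v + T v) + (S.card : ZMod 2) := by
        intro S
        rw [← mul_one (S.card : ZMod 2), ← nsmul_eq_mul, ← Finset.sum_const,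
          ← Finset.sum_add_distrib]
        exact Finset.sum_congr rfl fun v _ => by ring
      have h11 : (1 : ZMod 2) + 1 = 0 := by decide
      intro u
      rw [hsum]
      by_cases hu : K.Reachable u b
      · rw [hfilC u b hu, h3, hodd b r (Or.inl ⟨rfl, rfl⟩), h11]
      · by_cases hu' : K.Reachable u r
        · rw [hfilC u r hu', h4, hodd r b (Or.inr ⟨rfl, rfl⟩), h11]
        · rw [hout u hu hu', zero_add, hfil u hu hu']
          exact (ZMod.natCast_eq_zero_iff_even).2 (hev u (hub' u hu) (hur' u hu'))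

open Classical in
theorem e4_core [Fintype V] (M : SimpleGraph V) (β : V → ℕ) (a z c : ℝ)
    (hac : a ≠ c) (Φ : ℝ → ZMod 2)
    (h1 : ∀ t, Φ (t + (c - a)) = Φ t) (h2 : ∀ t, Φ (t + (z - a)) = Φ t + 1)
    (b r : V) (hbr : M.Adj b r) (T : V → ZMod 2) (hT : IsMaxCut (delVV M b r) T)
    (hTb : T b = T r)
    (Bb Br : Finset V) (hBb : ∀ s ∈ Bb, M.Adj b s ∧ s ≠ r ∧ T s ≠ T b)
    (hBr : ∀ s ∈ Br, M.Adj r s ∧ s ≠ b ∧ T s ≠ T b)
    (pr : ℕ) (hpr : pr ≤ 1) (hpr' : pr ≤ β r)
    (Nb Nr : Finset V) (hNb : ∀ v, v ∈ Nb ↔ M.Adj b v ∧ v ≠ r ∧ T v = T b)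
    (hNr : ∀ v, v ∈ Nr ↔ M.Adj r v ∧ v ≠ b ∧ T v = T b)
    (hnum : (Bb.card = Nb.card + 1 ∧ Br.card + pr = Nr.card) ∨
      (Bb.card = Nb.card ∧ Br.card + pr = Nr.card + 1) ∨
      (Bb.card = Nb.card ∧ Br.card + pr = Nr.card ∧ Nb.card ≠ Nr.card) ∨
      (Bb.card + 1 = Nb.card ∧ Br.card + pr = Nr.card + 1))
    (hpar : ∀ u, ∑ v ∈ Finset.univ.filter
      (fun v => (delVV M b r ⊔ e4L M b r Bb Br).Reachable u v),
        (Φ (a * (dg M v + β v)) + T v) = 0) :
    Good M β a z c := by
  have hbrne : b ≠ r := hbr.ne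
  obtain ⟨η, hη, hηnum⟩ : ∃ η : ℕ, η ≤ 1 ∧
      ((1 = 0 ∧ η = 0 ∧ Bb.card + 0 = Nb.card ∧ Br.card + pr = Nr.card) ∨
      (1 = 1 ∧ η = 0 ∧ Bb.card + 0 = Nb.card + 1 ∧ Br.card + pr = Nr.card) ∨
      (1 = 1 ∧ η = 0 ∧ Bb.card + 0 = Nb.card ∧ Br.card + pr = Nr.card + 1) ∨
      (1 = 1 ∧ η = 1 ∧ Bb.card + 0 = Nb.card ∧ Br.card + pr = Nr.card ∧ Nb.card ≠ Nr.card) ∨
      (1 = 1 ∧ η = 1 ∧ Bb.card + 0 + 1 = Nb.card ∧ Br.card + pr = Nr.card + 1)) := by
    rcases hnum with h | h | h | h
    · exact ⟨0, by norm_num, by omega⟩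
    · exact ⟨0, by norm_num, by omega⟩
    · exact ⟨1, le_refl _, by omega⟩
    · exact ⟨1, le_refl _, by omega⟩
  set M' := delVV M b r with hM'
  set L := e4L M b r Bb Br with hL
  set E := e4E b r Bb Br 0 pr η with hE
  set N := e4N b r Nb Nr 1 with hN
  have hsb : ∀ s ∈ Bb, s ≠ b := fun s hs h => (hBb s hs).2.2 (by rw [h])
  have hsr : ∀ s ∈ Br, s ≠ r := fun s hs h => (hBr s hs).2.2 (by rw [h, hTb])
  have hne := e4_poly M' T b r hbrne (e4_delb M b r) (e4_delr M b r) Nb Nr Bb Br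
    (fun v hv => ⟨((hNb v).1 hv).1.ne', ((hNb v).1 hv).2.1, ((hNb v).1 hv).2.2⟩)
    (fun v hv => ⟨((hNr v).1 hv).2.1, ((hNr v).1 hv).1.ne', ((hNr v).1 hv).2.2⟩)
    (fun v hv => ⟨hsb v hv, (hBb v hv).2.1, (hBb v hv).2.2⟩)
    (fun v hv => ⟨(hBr v hv).2.1, hsr v hv, (hBr v hv).2.2⟩)
    (fun v hv => hTb ▸ (hBr v hv).2.2) 1 η 0 pr (le_refl _) hη (by norm_num) hpr
    (fun _ => hTb) hηnum
  have hML : ∀ u v, M'.Adj u v → ¬ L.Adj u v := by
    intro u v huv hl
    rw [hM', e4_delVV_adj] at huv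
    rcases hl.2 with h | h | h | h
    · exact huv.2.1 h.1
    · exact huv.2.2.1 h.1
    · exact huv.2.2.2.1 h.1
    · exact huv.2.2.2.2 h.1
  have hKM : M' ⊔ L ≤ M := by
    refine sup_le ?_ ?_
    · intro u v huv
      rw [hM', e4_delVV_adj] at huv
      exact huv.1
    · intro u v huv
      exact huv.1
  obtain ⟨w, y, hws, hwv, -, -, hy, hy0, hΦ, hprop, hNprop⟩ := centre M' L T hT hML a z c hac Φ
    h1 h2 (fun v => a * β v + a * dg M v - a * dg (M' ⊔ L) v) (by
      intro u
      rw [← hpar u]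
      refine Finset.sum_congr (by congr!) fun v _ => ?_
      congr 2
      ring) E N (by
      intro n hn
      rw [hN, mem_e4N] at hn
      rcases hn with h | h | h
      · rw [h.1, ((hNb _).1 h.2).2.2]
      · rw [h.1, ((hNr _).1 h.2).2.2, hTb]
      · rw [h.2]; exact hTb) hne
  have hKb : ∀ s ∈ Bb, ¬ (M' ⊔ L).Adj b s := by
    intro s hs h
    rcases (SimpleGraph.sup_adj _ _ _ _).1 h with h | h
    · exact e4_delb M b r s h
    · rcases h.2 with h | h | h | h
      · exact h.2.2 hs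
      · exact hsb s hs h.1
      · exact hbrne h.1
      · exact (hBb s hs).2.1 h.1
  have hKr : ∀ s ∈ Br, ¬ (M' ⊔ L).Adj r s := by
    intro s hs h
    rcases (SimpleGraph.sup_adj _ _ _ _).1 h with h | h
    · exact e4_delr M b r s h
    · rcases h.2 with h | h | h | h
      · exact hbrne h.1.symm
      · exact (hBr s hs).2.1 h.1
      · exact h.2.2 hs
      · exact hsr s hs h.1
  have hKbr : ¬ (M' ⊔ L).Adj b r := by
    intro h
    rcases (SimpleGraph.sup_adj _ _ _ _).1 h with h | h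
    · exact e4_delb M b r r h
    · rcases h.2 with h | h | h | h
      · exact h.2.1 rfl
      · exact hbrne h.1.symm
      · exact hbrne h.1
      · exact h.2.1 rfl
  obtain ⟨w', i, hw's, hw'v, hi, hval⟩ := e4_glue M (M' ⊔ L) hKM β a z c hac E (by
      intro e he hne'
      rw [hE, mem_e4E] at he
      rcases he with h | h | h | h | h
      · have h3 : e = (b, e.2) := Prod.ext h.1 rfl
        rw [h3]
        exact ⟨(hBb _ h.2).1, hKb _ h.2⟩
      · have h3 : e = (r, e.2) := Prod.ext h.1 rfl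
        rw [h3]
        exact ⟨(hBr _ h.2).1, hKr _ h.2⟩
      · exact absurd h.1 (by norm_num)
      · rw [h.2] at hne'
        exact absurd rfl hne'
      · rw [h.2]
        exact ⟨hbr, hKbr⟩) (by
      intro v hv
      rw [hE, mem_e4E] at hv
      rcases hv with h | h | h | h | h
      · exact absurd h.1 (hsb _ h.2)
      · exact absurd h.1 (hsr _ h.2)
      · exact absurd h.1 (by norm_num)
      · have : v = r := (Prod.mk.inj h.2).1
        rw [this]
        omega
      · have h3 := Prod.mk.inj h.2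
        exact absurd (h3.1.symm.trans h3.2) hbrne) (by
      intro u v huv h3 h4
      rw [hE, mem_e4E] at h3 h4
      have h5 : u = b ∨ u = r := by
        rcases h3 with h | h | h | h | h
        · exact Or.inl h.1
        · exact Or.inr h.1
        · exact Or.inl (Prod.mk.inj h.2).1
        · exact Or.inr (Prod.mk.inj h.2).1
        · exact Or.inl (Prod.mk.inj h.2).1
      have h6 : v = b ∨ v = r := by
        rcases h4 with h | h | h | h | h
        · exact Or.inl h.1
        · exact Or.inr h.1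
        · exact Or.inl (Prod.mk.inj h.2).1
        · exact Or.inr (Prod.mk.inj h.2).1
        · exact Or.inl (Prod.mk.inj h.2).1
      -- the only possible pair is `(b, r)`, and then `(r, b)` is not in `E`
      have key : ∀ x x' : V, x = r → x' = b → ((x, x').1 = b ∧ (x, x').2 ∈ Bb) ∨
          ((x, x').1 = r ∧ (x, x').2 ∈ Br) ∨ (0 = 1 ∧ (x, x') = (b, b)) ∨
          (pr = 1 ∧ (x, x') = (r, r)) ∨ (η = 1 ∧ (x, x') = (b, r)) → False := by
        intro x x' hx hx' h
        rcases h with h | h | h | h | h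
        · exact hbrne (h.1.symm.trans hx)
        · exact (hBr _ h.2).2.1 hx'
        · exact absurd h.1 (by norm_num)
        · exact hbrne (hx'.symm.trans (Prod.mk.inj h.2).2)
        · exact hbrne ((Prod.mk.inj h.2).1.symm.trans hx)
      rcases h5 with h5 | h5 <;> rcases h6 with h6 | h6
      · exact huv (h5.trans h6.symm)
      · exact key v u h6 h5 h4
      · exact key u v h5 h6 h3
      · exact huv (h5.trans h6.symm)) w y hws hwv hy hy0
  refine ⟨w', i, hw's, hw'v, hi, ?_⟩
  -- properness at `b` and `r`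
  have hpb : ∀ t, M.Adj b t → val M (fun v => a * β v + (c - a) * i v) w' b ≠
      val M (fun v => a * β v + (c - a) * i v) w' t := by
    intro t ht
    rw [hval b, hval t]
    by_cases htr : t = r
    · rw [htr]
      exact hNprop (b, r) (by rw [hN, mem_e4N]; exact Or.inr (Or.inr ⟨rfl, rfl⟩))
    · by_cases hTt : T t = T b
      · exact hNprop (b, t) (by
          rw [hN, mem_e4N]; exact Or.inl ⟨rfl, (hNb t).2 ⟨ht, htr, hTt⟩⟩)
      · intro heq
        apply hTt
        rw [← hΦ t, ← hΦ b, heq]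
  have hpr2 : ∀ t, M.Adj r t → val M (fun v => a * β v + (c - a) * i v) w' r ≠
      val M (fun v => a * β v + (c - a) * i v) w' t := by
    intro t ht
    by_cases htb : t = b
    · rw [htb]
      exact (hpb r hbr).symm
    · rw [hval r, hval t]
      by_cases hTt : T t = T b
      · exact hNprop (r, t) (by
          rw [hN, mem_e4N]; exact Or.inr (Or.inl ⟨rfl, (hNr t).2 ⟨ht, htb, hTt⟩⟩))
      · intro heq
        apply hTt
        rw [← hΦ t, hTb, ← hΦ r, heq]
  intro u v huv
  by_cases hub : u = b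
  · rw [hub] at huv ⊢
    exact hpb v huv
  by_cases hur : u = r
  · rw [hur] at huv ⊢
    exact hpr2 v huv
  by_cases hvb : v = b
  · rw [hvb] at huv ⊢
    exact (hpb u huv.symm).symm
  by_cases hvr : v = r
  · rw [hvr] at huv ⊢
    exact (hpr2 u huv.symm).symm
  rw [hval u, hval v]
  exact hprop u v ((e4_delVV_adj M b r u v).2 ⟨huv, hub, hvb, hur, hvr⟩)

end e4gen

open Classical in
/-- Module E4 (central edge `b r`). -/
theorem central {V : Type*} [Fintype V] (M : SimpleGraph V) (β : V → ℕ) (a z c : ℝ)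
    (hac : a ≠ c) (Φ : ℝ → ZMod 2)
    (h1 : ∀ t, Φ (t + (c - a)) = Φ t) (h2 : ∀ t, Φ (t + (z - a)) = Φ t + 1)
    (b r : V) (hbr : M.Adj b r) (T : V → ZMod 2) (hT : IsMaxCut (delVV M b r) T)
    (hTb : T b = T r) (hcard : Even (Fintype.card V))
    (hev : ∀ u, u ≠ b → u ≠ r →
      Even (Finset.univ.filter (fun v => (delVV M b r).Reachable u v)).card)
    (htot : ∑ v, (Φ (a * (dg M v + β v)) + T v) = 0)
    (Bb Br : Finset V) (hBb : ∀ s ∈ Bb, M.Adj b s ∧ s ≠ r ∧ T s ≠ T b)
    (hBr : ∀ s ∈ Br, M.Adj r s ∧ s ≠ b ∧ T s ≠ T b)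
    (pr : ℕ) (hpr : pr ≤ 1) (hpr' : pr ≤ β r)
    (hlink : ∀ u, u ≠ b → u ≠ r → (∀ v, (delVV M b r).Reachable u v → M.Adj b v → v ∈ Bb) →
      (∀ v, (delVV M b r).Reachable u v → M.Adj r v → v ∈ Br) →
      ∑ v ∈ Finset.univ.filter (fun v => (delVV M b r).Reachable u v),
        (Φ (a * (dg M v + β v)) + T v) = 0)
    (nb nr : ℕ) (hnb : nb = (Finset.univ.filter (fun v => M.Adj b v ∧ v ≠ r ∧ T v = T b)).card)
    (hnr : nr = (Finset.univ.filter (fun v => M.Adj r v ∧ v ≠ b ∧ T v = T b)).card)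
    (hnum : (Bb.card = nb + 1 ∧ Br.card + pr = nr) ∨ (Bb.card = nb ∧ Br.card + pr = nr + 1) ∨
      (Bb.card = nb ∧ Br.card + pr = nr ∧ nb ≠ nr) ∨ (Bb.card + 1 = nb ∧ Br.card + pr = nr + 1)) :
    Good M β a z c := by
  subst hnb hnr
  have hpar := e4_hpar M b r T (fun v => Φ (a * (dg M v + β v))) hcard hev htot Bb Br hlink
  rcases hpar with hpar | hpar
  · exact e4_core M β a z c hac Φ h1 h2 b r hbr T hT hTb Bb Br hBb hBr pr hpr hpr' _ _
      (fun v => by simp) (fun v => by simp) hnum hpar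
  · exact e4_core M β a z c hac Φ h1 h2 b r hbr (fun v => T v + 1) (e4_max_compl hT)
      (by rw [hTb]) Bb Br (fun s hs => ⟨(hBb s hs).1, (hBb s hs).2.1, by
        simpa using (hBb s hs).2.2⟩) (fun s hs => ⟨(hBr s hs).1, (hBr s hs).2.1, by
        simpa using (hBr s hs).2.2⟩) pr hpr hpr' _ _
      (fun v => by simp) (fun v => by simp) hnum hpar

end PoolPW
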